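import Pool.Agent.Q18.RkOne

/-!
MP_e8bb44_al, Q1: every form on `J` is equivalent to the form of a rook placement.
-/

namespace Pool.Agent.Results.MP_e8bb44_al.RookExistence

/-- the number of the block of the composition `c` of `n` which contains the index `i` -/
def blk {n : ℕ} (c : Composition n) (i : Fin n) : ℕ := (c.index i : ℕ)

theorem result (K : Type*) [Field K] (n : ℕ) (c : Composition n)
    (lam : Module.Dual K (Pool.Agent.Q18.Rk.JJ K (blk c))) :
    ∃ D : Finset (Fin n × Fin n), Pool.Agent.Q18.Rk.IsRook (blk c) D ∧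
      Pool.Agent.Q18.Rk.Eqv (blk c) lam (Pool.Agent.Q18.Rk.lamD K (blk c) D) :=
  Pool.Agent.Q18.Rk.one lam

end Pool.Agent.Results.MP_e8bb44_al.RookExistence
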