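import Pool.Agent.Q18.RkTwo

/-!
MP_e8bb44_al, Q2: two rook placements give equivalent forms on `J` exactly when they are conjugate
under the Weyl group of the Levi subgroup.
-/

namespace Pool.Agent.Results.MP_e8bb44_al.RookUniqueness

/-- the number of the block of the composition `c` of `n` which contains the index `i` -/
def blk {n : ℕ} (c : Composition n) (i : Fin n) : ℕ := (c.index i : ℕ)

theorem result (K : Type*) [Field K] (n : ℕ) (c : Composition n)
    (D D' : Finset (Fin n × Fin n)) (hD : Pool.Agent.Q18.Rk.IsRook (blk c) D)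
    (hD' : Pool.Agent.Q18.Rk.IsRook (blk c) D') :
    Pool.Agent.Q18.Rk.Eqv (blk c) (Pool.Agent.Q18.Rk.lamD K (blk c) D)
      (Pool.Agent.Q18.Rk.lamD K (blk c) D') ↔
    ∃ w : Equiv.Perm (Fin n), (∀ i, blk c (w i) = blk c i) ∧
      D' = D.image (fun α => (w α.1, w α.2)) :=
  Pool.Agent.Q18.Rk.two hD hD'

end Pool.Agent.Results.MP_e8bb44_al.RookUniqueness
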